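import Mathlib
import Pool.Graph.R_pool_sql_team_51e01f96.H.helper22_.Mae

set_option autoImplicit false

namespace Pool.Agent.Results.MP_f35a22_co.EveryDimension

open Module

/-- Euclidean `n`-space. -/
abbrev E (n : ℕ) := EuclideanSpace ℝ (Fin n)

/-- The unit spheres with centres in `T` have a common point. -/
def Meet {n : ℕ} (T : Set (E n)) : Prop := ∃ p : E n, ∀ c ∈ T, dist p c = 1

/-- Maehara's property in dimension `n`: for every set `S` of at least `n + 2` centres, if any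
`n + 1` of the unit spheres have a common point then all of them have one. -/
def Maehara (n : ℕ) : Prop :=
  ∀ S : Set (E n), (n : ℕ∞) + 2 ≤ S.encard →
    (∀ T ⊆ S, T.encard = (n : ℕ∞) + 1 → Meet T) → Meet S

lemma Meet.mono {n : ℕ} {T U : Set (E n)} (h : T ⊆ U) (hU : Meet U) : Meet T := by
  obtain ⟨p, hp⟩ := hU
  exact ⟨p, fun c hc => hp c (h hc)⟩

/-- three points are never all at distance one from three points in 3-space -/
lemma noK33 (u x : Fin 3 → E 3) (hu : Function.Injective u) (hx : Function.Injective x)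
    (h : ∀ i j, dist (u i) (x j) = 1) : False := by
  have ax : AffineIndependent ℝ x :=
    EuclideanGeometry.Cospherical.affineIndependent (s := Set.range x)
      ⟨u 0, 1, by rintro _ ⟨j, rfl⟩; rw [dist_comm]; exact h 0 j⟩ subset_rfl hx
  have au : AffineIndependent ℝ u :=
    EuclideanGeometry.Cospherical.affineIndependent (s := Set.range u)
      ⟨x 0, 1, by rintro _ ⟨j, rfl⟩; exact h j 0⟩ subset_rfl hu
  have fx := ax.finrank_vectorSpan (n := 2) (by simp)
  have fu := au.finrank_vectorSpan (n := 2) (by simp)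
  have ho : vectorSpan ℝ (Set.range u) ≤ (vectorSpan ℝ (Set.range x))ᗮ := by
    rw [← Submodule.isOrtho_iff_le, vectorSpan_def, vectorSpan_def, Submodule.isOrtho_span]
    rintro _ ⟨_, ⟨i, rfl⟩, _, ⟨j, rfl⟩, rfl⟩ _ ⟨_, ⟨k, rfl⟩, _, ⟨l, rfl⟩, rfl⟩
    have h1 : dist (x l) (u j) = dist (x k) (u j) := by
      rw [dist_comm, h, dist_comm, h]
    have h2 : dist (x l) (u i) = dist (x k) (u i) := by
      rw [dist_comm, h, dist_comm, h]
    exact EuclideanGeometry.inner_vsub_vsub_of_dist_eq_of_dist_eq h1 h2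
  have h3 := Submodule.finrank_mono ho
  have h4 := Submodule.finrank_add_finrank_orthogonal (vectorSpan ℝ (Set.range x))
  rw [finrank_euclideanSpace_fin] at h4
  omega

lemma dec1 : ∀ i j : Fin 5, i ≠ j → ∃ a b c : Fin 5, (a ≠ i ∧ a ≠ j) ∧ (b ≠ i ∧ b ≠ j) ∧
    (c ≠ i ∧ c ≠ j) ∧ ∀ k, k = i ∨ k = j ∨ k = a ∨ k = b ∨ k = c := by decide

lemma dec2 : ∀ a b c : Fin 5, ∃ d e : Fin 5, d ≠ e ∧ (d ≠ a ∧ d ≠ b ∧ d ≠ c) ∧
    (e ≠ a ∧ e ≠ b ∧ e ≠ c) := by decide

lemma inj3 {α : Type*} {a b c : α} (h1 : a ≠ b) (h2 : a ≠ c) (h3 : b ≠ c) :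
    Function.Injective ![a, b, c] := by
  intro i j hij
  fin_cases i <;> fin_cases j <;> simp_all

lemma noK {p q r a b c : E 3} (e1 : p ≠ q) (e2 : p ≠ r) (e3 : q ≠ r) (f1 : a ≠ b) (f2 : a ≠ c)
    (f3 : b ≠ c) (p1 : dist p a = 1) (p2 : dist p b = 1) (p3 : dist p c = 1)
    (q1 : dist q a = 1) (q2 : dist q b = 1) (q3 : dist q c = 1)
    (r1 : dist r a = 1) (r2 : dist r b = 1) (r3 : dist r c = 1) : False := by
  refine noK33 ![p, q, r] ![a, b, c] (inj3 e1 e2 e3) (inj3 f1 f2 f3) ?_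
  simp [Fin.forall_fin_succ, p1, p2, p3, q1, q2, q3, r1, r2, r3]

lemma en2 (a b : E 3) : ({a, b} : Set (E 3)).encard ≤ 2 :=
  (Set.encard_insert_le _ _).trans (by rw [Set.encard_singleton]; norm_num)

lemma en3 (a b c : E 3) : ({a, b, c} : Set (E 3)).encard ≤ 3 :=
  (Set.encard_insert_le _ _).trans (le_trans (by gcongr; exact en2 b c)
    (by norm_num : (2 : ℕ∞) + 1 ≤ 3))

lemma en4 (a b c d : E 3) : ({a, b, c, d} : Set (E 3)).encard ≤ 4 :=
  (Set.encard_insert_le _ _).trans (le_trans (by gcongr; exact en3 b c d)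
    (by norm_num : (3 : ℕ∞) + 1 ≤ 4))

lemma en5 (a b c d e : E 3) : ({a, b, c, d, e} : Set (E 3)).encard ≤ 5 :=
  (Set.encard_insert_le _ _).trans (le_trans (by gcongr; exact en4 b c d e)
    (by norm_num : (4 : ℕ∞) + 1 ≤ 5))

lemma dec3 : ∀ a : Fin 5, ∃ a' : Fin 5, a ≠ a' := by decide

lemma star5 (c₀ : E 3) (x : Fin 5 → E 3) (hx : Function.Injective x) (hc : ∀ i, c₀ ≠ x i)
    (h : ∀ i j k, ∃ p, dist p c₀ = 1 ∧ dist p (x i) = 1 ∧ dist p (x j) = 1 ∧ dist p (x k) = 1) :
    ∃ p, dist p c₀ = 1 ∧ ∀ i, dist p (x i) = 1 := by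
  by_contra hno
  have step : ∀ i j : Fin 5, i ≠ j → ∃ m, m ≠ i ∧ m ≠ j ∧ ∃ p, dist p c₀ = 1 ∧
      ∀ k, k ≠ m → dist p (x k) = 1 := by
    intro i j hij
    obtain ⟨a, b, c, ⟨ai, aj⟩, ⟨bi, bj⟩, ⟨ci, cj⟩, hk⟩ := dec1 i j hij
    obtain ⟨p, p0, pi, pj, pa⟩ := h i j a
    obtain ⟨q, q0, qi, qj, qb⟩ := h i j b
    obtain ⟨r, r0, ri, rj, rc⟩ := h i j c
    by_cases e1 : p = q
    · subst e1
      refine ⟨c, ci, cj, p, p0, fun k hkc => ?_⟩
      rcases hk k with rfl | rfl | rfl | rfl | rfl <;> first | assumption | exact absurd rfl hkc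
    by_cases e2 : p = r
    · subst e2
      refine ⟨b, bi, bj, p, p0, fun k hkc => ?_⟩
      rcases hk k with rfl | rfl | rfl | rfl | rfl <;> first | assumption | exact absurd rfl hkc
    by_cases e3 : q = r
    · subst e3
      refine ⟨a, ai, aj, q, q0, fun k hkc => ?_⟩
      rcases hk k with rfl | rfl | rfl | rfl | rfl <;> first | assumption | exact absurd rfl hkc
    exact (noK e1 e2 e3 (hc i) (hc j) (hx.ne hij) p0 pi pj q0 qi qj r0 ri rj).elim
  obtain ⟨a, -, -, p, p0, hp⟩ := step 0 1 (by decide)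
  obtain ⟨a', ha'⟩ : ∃ a' : Fin 5, a ≠ a' := dec3 a
  obtain ⟨b, hba, -, q, q0, hq⟩ := step a a' ha'
  obtain ⟨c, hca, hcb, r, r0, hr⟩ := step a b hba.symm
  obtain ⟨d, e, hde, ⟨da, db, dc⟩, ⟨ea, eb, ec⟩⟩ := dec2 a b c
  have e1 : p ≠ q := by
    rintro rfl
    refine hno ⟨p, p0, fun k => ?_⟩
    by_cases hk : k = a
    · exact hq k (by rw [hk]; exact hba.symm)
    · exact hp k hk
  have e2 : p ≠ r := by
    rintro rfl
    refine hno ⟨p, p0, fun k => ?_⟩
    by_cases hk : k = a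
    · exact hr k (by rw [hk]; exact hca.symm)
    · exact hp k hk
  have e3 : q ≠ r := by
    rintro rfl
    refine hno ⟨q, q0, fun k => ?_⟩
    by_cases hk : k = b
    · exact hr k (by rw [hk]; exact hcb.symm)
    · exact hq k hk
  exact noK e1 e2 e3 (hc d) (hc e) (hx.ne hde) p0 (hp d da) (hp e ea) q0 (hq d db) (hq e eb)
    r0 (hr d dc) (hr e ec)

/-- six or more spheres: the quadruples containing one fixed sphere suffice -/
lemma fixedOne (S : Set (E 3)) (c₀ : E 3) (h0 : c₀ ∈ S) (h6 : 6 ≤ S.encard)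
    (H : ∀ T ⊆ S, c₀ ∈ T → T.encard = 4 → Meet T) : Meet S := by
  have H4 : ∀ U ⊆ S, c₀ ∈ U → U.encard ≤ 4 → Meet U := by
    intro U hU hc hle
    obtain ⟨T, h1, h2, h3⟩ := Set.exists_superset_subset_encard_eq hU hle
      (le_trans (by norm_num) h6)
    exact (H T h2 (h1 hc) h3).mono h1
  have H6 : ∀ U ⊆ S, c₀ ∈ U → U.encard ≤ 6 → Meet U := by
    intro U hU hc hle
    obtain ⟨V, h1, h2, h3⟩ := Set.exists_superset_subset_encard_eq hU hle h6
    refine Meet.mono h1 ?_
    have hcV := h1 hc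
    have h5 : (V \ {c₀}).encard = 5 := by
      rw [Set.encard_sdiff_singleton_of_mem hcV, h3]; rfl
    have hf : (V \ {c₀}).Finite := Set.finite_of_encard_eq_coe h5
    have := hf.to_subtype
    have hn : Nat.card (V \ {c₀} : Set (E 3)) = 5 := by
      rw [Nat.card_coe_set_eq, Set.ncard_def, h5]; rfl
    let e := Finite.equivFinOfCardEq hn
    let x : Fin 5 → E 3 := fun i => (e.symm i).1
    have hx : Function.Injective x := fun i j h => e.symm.injective (Subtype.ext h)
    have hxV : ∀ i, x i ∈ V := fun i => (e.symm i).2.1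
    have hxc : ∀ i, c₀ ≠ x i := fun i h => (e.symm i).2.2 h.symm
    obtain ⟨p, p0, hp⟩ := star5 c₀ x hx hxc (by
      intro i j k
      obtain ⟨p, hp⟩ := H4 {c₀, x i, x j, x k} (by
        rintro y (rfl | rfl | rfl | rfl)
        · exact h0
        · exact h2 (hxV i)
        · exact h2 (hxV j)
        · exact h2 (hxV k)) (by simp) (en4 _ _ _ _)
      exact ⟨p, hp _ (by simp), hp _ (by simp), hp _ (by simp), hp _ (by simp)⟩)
    refine ⟨p, fun y hy => ?_⟩
    by_cases hyc : y = c₀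
    · rw [hyc]; exact p0
    · have : y = x (e ⟨y, hy, hyc⟩) := by simp [x]
      rw [this]; exact hp _
  by_contra hno
  have hlt : 1 < (S \ {c₀}).encard := by
    have := Set.encard_sdiff_singleton_add_one h0
    by_contra hle
    push Not at hle
    have h7 : S.encard ≤ 1 + 1 := by rw [← this]; gcongr
    exact absurd (le_trans h6 h7) (by norm_num)
  obtain ⟨a, b, ⟨haS, hac⟩, ⟨hbS, hbc⟩, hab⟩ := Set.one_lt_encard_iff.1 hlt
  have hne : ∀ p : E 3, ∃ z ∈ S, dist p z ≠ 1 := by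
    intro p
    by_contra h
    push Not at h
    exact hno ⟨p, h⟩
  obtain ⟨p, hp⟩ := H6 {c₀, a, b} (by rintro y (rfl | rfl | rfl) <;> assumption) (by simp) ((en3 _ _ _).trans (by norm_num))
  obtain ⟨z, hzS, hz⟩ := hne p
  obtain ⟨q, hq⟩ := H6 {z, c₀, a, b} (by rintro y (rfl | rfl | rfl | rfl) <;> assumption)
    (by simp) ((en4 _ _ _ _).trans (by norm_num))
  obtain ⟨t, htS, ht⟩ := hne q
  obtain ⟨r, hr⟩ := H6 {t, z, c₀, a, b} (by rintro y (rfl | rfl | rfl | rfl | rfl) <;> assumption)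
    (by simp) ((en5 _ _ _ _ _).trans (by norm_num))
  have e1 : p ≠ q := by rintro rfl; exact hz (hq z (by simp))
  have e2 : p ≠ r := by rintro rfl; exact hz (hr z (by simp))
  have e3 : q ≠ r := by rintro rfl; exact ht (hr t (by simp))
  exact noK e1 e2 e3 (fun h => hac h.symm) (fun h => hbc h.symm) hab
    (hp _ (by simp)) (hp _ (by simp)) (hp _ (by simp)) (hq _ (by simp)) (hq _ (by simp))
    (hq _ (by simp)) (hr _ (by simp)) (hr _ (by simp)) (hr _ (by simp))

lemma dist_one_iff {n : ℕ} (x y : E n) : dist x y = 1 ↔ ∑ i, (x i - y i) ^ 2 = 1 := by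
  rw [EuclideanSpace.dist_eq, Real.sqrt_eq_one]
  simp [Real.dist_eq]

/-- dimension three (the library's theorem `five`) -/
lemma maehara3 : Maehara 3 := by
  intro S h5 h4
  have h5 : 5 ≤ S.encard := le_trans (by norm_num) h5
  have H5 : ∀ T : Set (E 3), T ⊆ S → T.encard ≤ 5 → Meet T := by
    intro T0 hT0 hc0
    obtain ⟨T, h0, hT, hc⟩ := Set.exists_superset_subset_encard_eq hT0 hc0 h5
    have hf : T.Finite := Set.finite_of_encard_eq_coe hc
    have := hf.to_subtype
    have hn : Nat.card T = 5 := by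
      rw [Nat.card_coe_set_eq, Set.ncard_def, hc]; rfl
    let e := Finite.equivFinOfCardEq hn
    let c : Fin 5 → E 3 := fun i => (e.symm i).1
    have hci : Function.Injective c := fun i j h => e.symm.injective (Subtype.ext h)
    have hcT : ∀ i, c i ∈ T := fun i => (e.symm i).2
    have hp : ∀ i, Meet (T \ {c i}) := by
      intro i
      apply h4 _ (Set.sdiff_subset.trans hT)
      rw [Set.encard_sdiff_singleton_of_mem (hcT i), hc]; norm_num; rfl
    choose p hp using hp
    have sd : ∀ x y : E 3, dist x y = 1 ↔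
        Pool.Agent.H.helper22.Mae.sq x.ofLp y.ofLp = 1 := by
      intro x y
      rw [dist_one_iff]
      simp [Fin.sum_univ_three, Pool.Agent.H.helper22.Mae.sq]
    obtain ⟨i, hi⟩ := Pool.Agent.H.helper22.Mae.five (fun i => (p i).ofLp) (fun i => (c i).ofLp)
      (fun i j hij => (sd _ _).1 (hp i _ ⟨hcT j, fun h => hij (hci h).symm⟩))
    refine ⟨p i, fun z hz => ?_⟩
    by_cases hzi : z = c i
    · rw [hzi]; exact (sd _ _).2 hi
    · exact hp i z ⟨h0 hz, hzi⟩
  obtain ⟨t, htS, hsp, hai⟩ := exists_affineIndependent ℝ (E 3) S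
  have htf : t.Finite := finite_set_of_fin_dim_affineIndependent ℝ hai
  have ht4 : t.encard ≤ 4 := by
    have := htf.fintype
    have h1 := hai.card_le_finrank_succ
    have h2 := Submodule.finrank_le (vectorSpan ℝ (Set.range ((↑) : t → E 3)))
    rw [finrank_euclideanSpace_fin] at h2
    have h3 : Fintype.card t ≤ 4 := le_trans (by convert h1) (Nat.succ_le_succ h2)
    rw [Set.encard_eq_coe_toFinset_card, Set.toFinset_card]
    exact_mod_cast h3
  obtain ⟨p, hp⟩ := H5 t htS (ht4.trans (by norm_num))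
  refine ⟨p, fun c hc => ?_⟩
  obtain ⟨q, hq⟩ := H5 (insert c t) (Set.insert_subset hc htS)
    ((Set.encard_insert_le _ _).trans (by
      calc t.encard + 1 ≤ 4 + 1 := by gcongr
        _ = 5 := rfl))
  have h1 : affineSpan ℝ t ≤ AffineSubspace.perpBisector p q := by
    rw [affineSpan_le]
    intro z hz
    rw [SetLike.mem_coe, AffineSubspace.mem_perpBisector_iff_dist_eq, dist_comm z p, dist_comm z q,
      hp z hz, hq z (Set.mem_insert_of_mem _ hz)]
  have h2 := h1 (hsp ▸ subset_affineSpan ℝ S hc)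
  rw [AffineSubspace.mem_perpBisector_iff_dist_eq, dist_comm c p, dist_comm c q,
    hq c (Set.mem_insert _ _)] at h2
  exact h2

/-- a family of `n + 2` centres with a centre for every subfamily of `n + 1` but no common one -/
lemma fam {n : ℕ} {ι : Type} [Fintype ι] (hι : Fintype.card ι = n + 2) (c p : ι → E n)
    (h : ∀ i j, i ≠ j → dist (p i) (c j) = 1) (hno : ¬ Meet (Set.range c)) : ¬ Maehara n := by
  have hc : Function.Injective c := by
    intro i j hij
    by_contra hne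
    refine hno ⟨p i, ?_⟩
    rintro _ ⟨k, rfl⟩
    by_cases hk : k = i
    · rw [hk, hij]; exact h i j hne
    · exact h i k (Ne.symm hk)
  have hcard : (Set.range c).encard = (n : ℕ∞) + 2 := by
    rw [← Set.image_univ, hc.encard_image, Set.encard_univ, ENat.card_eq_coe_fintype_card, hι]
    push_cast; rfl
  intro M
  refine hno (M _ hcard.ge ?_)
  intro T hT hTc
  have : ∃ i, c i ∉ T := by
    by_contra hall
    push Not at hall
    have h1 : (Set.range c).encard ≤ T.encard :=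
      Set.encard_le_encard (by rintro _ ⟨i, rfl⟩; exact hall i)
    rw [hcard, hTc] at h1
    have h2 : n + 2 ≤ n + 1 := by exact_mod_cast h1
    omega
  obtain ⟨i, hi⟩ := this
  refine ⟨p i, fun y hy => ?_⟩
  obtain ⟨j, rfl⟩ := hT hy
  exact h i j (by rintro rfl; exact hi hy)

lemma two : ¬ Maehara 2 := by
  refine fam (ι := Fin 4) (by simp) ![!₂[1, 0], !₂[0, 1], !₂[-3/5, -4/5], !₂[2/5, 1/5]]
    ![!₂[-3/5, 1/5], !₂[2/5, -4/5], !₂[1, 1], !₂[0, 0]] ?_ ?_
  · intro i j hij
    rw [dist_one_iff, Fin.sum_univ_two]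
    fin_cases i <;> fin_cases j <;> simp at hij ⊢ <;> norm_num
  · rintro ⟨p, hp⟩
    have h0 := hp _ ⟨0, rfl⟩
    have h1 := hp _ ⟨1, rfl⟩
    have h2 := hp _ ⟨2, rfl⟩
    have h3 := hp _ ⟨3, rfl⟩
    rw [dist_one_iff, Fin.sum_univ_two] at h0 h1 h2 h3
    simp at h0 h1 h2 h3
    have e1 : p 0 = p 1 := by linarith
    have e2 : p 0 = 0 := by rw [← e1] at h0 h2; linarith
    rw [← e1, e2] at h3
    norm_num at h3

lemma small {n : ℕ} (hn : n ≤ 1) : Maehara n := by
  intro S h2 h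
  exfalso
  interval_cases n
  · have : Subsingleton (E 0) := inferInstance
    have h3 : S.encard ≤ 1 := Set.encard_le_one_iff_subsingleton.2 Set.subsingleton_of_subsingleton
    exact absurd (le_trans h2 h3) (by norm_num)
  · have key : ∀ x ∈ S, ∀ y ∈ S, x ≠ y → (x 0 - y 0) ^ 2 = 4 := by
      intro x hx y hy hxy
      obtain ⟨p, hp⟩ := h {x, y} (by rintro z (rfl | rfl) <;> assumption)
        (by rw [Set.encard_pair hxy]; norm_num)
      have h1 := hp x (by simp)
      have h2 := hp y (by simp)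
      rw [dist_one_iff, Fin.sum_univ_one] at h1 h2
      have hne : x 0 ≠ y 0 := fun e => hxy (by ext i; fin_cases i; exact e)
      have e1 : (x 0 - y 0) * (2 * p 0 - x 0 - y 0) = 0 := by linear_combination h2 - h1
      rcases mul_eq_zero.1 e1 with e2 | e2
      · exact absurd (sub_eq_zero.1 e2) hne
      · have : p 0 = (x 0 + y 0) / 2 := by linarith
        rw [this] at h1
        linear_combination 4 * h1
    obtain ⟨T, hT, hT3⟩ := Set.exists_subset_encard_eq
      (show (3 : ℕ∞) ≤ S.encard from le_trans (by norm_num) h2)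
    obtain ⟨x, y, z, hxy, hxz, hyz, rfl⟩ := Set.encard_eq_three.1 hT3
    have hx : x ∈ S := hT (by simp)
    have hy : y ∈ S := hT (by simp)
    have hz : z ∈ S := hT (by simp)
    have e1 := key x hx y hy hxy
    have e2 := key x hx z hz hxz
    have e3 := key y hy z hz hyz
    nlinarith

/-- squared norm of `a e_j + b e_k + c 1` -/
lemma nrm {n : ℕ} (j k : Fin n) (a b c : ℝ) :
    ∑ i : Fin n, ((if i = j then a else 0) + (if i = k then b else 0) + c) ^ 2
      = a ^ 2 + b ^ 2 + n * c ^ 2 + 2 * a * c + 2 * b * c + (if j = k then 2 * a * b else 0) := by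
  have h : ∀ i : Fin n, ((if i = j then a else 0) + (if i = k then b else 0) + c) ^ 2
      = (if i = j then a ^ 2 + 2 * a * c else 0) + (if i = k then b ^ 2 + 2 * b * c else 0)
        + (if i = j then (if j = k then 2 * a * b else 0) else 0) + c ^ 2 := by
    intro i
    by_cases h1 : i = j
    · subst h1
      by_cases h2 : i = k
      · simp [h2]; ring
      · simp [h2]; ring
    · by_cases h2 : i = k
      · subst h2; simp [h1]; ring
      · simp [h1, h2]
  rw [Finset.sum_congr rfl fun i _ => h i]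
  simp only [Finset.sum_add_distrib, Finset.sum_ite_eq', Finset.mem_univ, if_true,
    Finset.sum_const, Finset.card_univ, Fintype.card_fin, nsmul_eq_mul]
  ring

/-- the vector `a e_j + b 1` -/
def V {n : ℕ} (j : Fin n) (a b : ℝ) : E n := WithLp.toLp 2 fun i => (if i = j then a else 0) + b

lemma dV {n : ℕ} (j k : Fin n) (a b a' b' : ℝ) :
    ∑ i, (V j a b i - V k a' b' i) ^ 2 = a ^ 2 + a' ^ 2 + n * (b - b') ^ 2
      + 2 * a * (b - b') - 2 * a' * (b - b') - (if j = k then 2 * a * a' else 0) := by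
  have h := nrm j k a (-a') (b - b')
  have e : ∀ i, V j a b i - V k a' b' i
      = (if i = j then a else 0) + (if i = k then -a' else 0) + (b - b') := by
    intro i
    simp only [V]
    split_ifs <;> ring
  simp only [e, h]
  split_ifs <;> ring

lemma dp {n : ℕ} (p : E n) (j : Fin n) (a b : ℝ) :
    ∑ i, (p i - V j a b i) ^ 2 = ∑ i, p i ^ 2 - 2 * b * ∑ i, p i - 2 * a * p j
      + a ^ 2 + n * b ^ 2 + 2 * a * b := by
  have e : ∀ i, (p i - V j a b i) ^ 2 = p i ^ 2 - 2 * b * p i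
      + (if i = j then a ^ 2 + 2 * a * b - 2 * a * p j else 0) + b ^ 2 := by
    intro i
    simp only [V]
    by_cases h : i = j
    · subst h; simp; ring
    · simp [h]; ring
  simp only [e, Finset.sum_add_distrib, Finset.sum_sub_distrib, ← Finset.mul_sum,
    Finset.sum_ite_eq', Finset.mem_univ, if_true,
    Finset.sum_const, Finset.card_univ, Fintype.card_fin, nsmul_eq_mul]
  ring

/-- every dimension at least four: two antipodal points and a simplex -/
lemma big {n : ℕ} (hn : 4 ≤ n) : ¬ Maehara n := by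
  have hn4 : (4 : ℝ) ≤ n := by exact_mod_cast hn
  have hn0 : (0 : ℝ) < n := by linarith
  have hn1 : (0 : ℝ) < n - 1 := by linarith
  have hn2 : (0 : ℝ) < n - 2 := by linarith
  obtain ⟨d, hd⟩ : ∃ d : ℝ, d = n * (n - 2) := ⟨_, rfl⟩
  have hd8 : 8 ≤ d := by rw [hd]; nlinarith
  have hd0 : 0 < d := by linarith
  obtain ⟨r, hr⟩ : ∃ r, r = Real.sqrt (1 - 8 / d) := ⟨_, rfl⟩
  have hr2 : r ^ 2 = 1 - 8 / d := by
    rw [hr]; exact Real.sq_sqrt (by rw [sub_nonneg, div_le_one hd0]; exact hd8)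
  have hr0 : 0 ≤ r := by rw [hr]; exact Real.sqrt_nonneg _
  have hr1 : r < 1 := by
    have : 0 < 8 / d := by positivity
    nlinarith
  -- s, σ: the roots of z² - z + 2/d
  obtain ⟨s, hs⟩ : ∃ s, s = (1 - r) / 2 := ⟨_, rfl⟩
  obtain ⟨σ, hσ⟩ : ∃ σ, σ = (1 + r) / 2 := ⟨_, rfl⟩
  have hs0 : 0 < s := by rw [hs]; linarith
  have hσ0 : 0 < σ := by rw [hσ]; linarith
  have hsum : s + σ = 1 := by rw [hs, hσ]; ring
  have hprod : s * σ = 2 / d := by rw [hs, hσ]; linear_combination (-1/4) * hr2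
  obtain ⟨w, hw⟩ : ∃ w : ℝ, w = Real.sqrt n := ⟨_, rfl⟩
  have hw2 : w ^ 2 = n := by rw [hw]; exact Real.sq_sqrt hn0.le
  have hw0 : 0 < w := by rw [hw]; exact Real.sqrt_pos.2 hn0
  -- α, α'
  have h2d : 0 < 2 / d := by positivity
  obtain ⟨α, hα⟩ : ∃ α, α = Real.sqrt ((s + 2 / d) * (n / (n - 1))) := ⟨_, rfl⟩
  have hα2 : α ^ 2 = (s + 2 / d) * (n / (n - 1)) := by
    rw [hα]; exact Real.sq_sqrt (by positivity)
  have hα0 : 0 < α := by rw [hα]; exact Real.sqrt_pos.2 (by positivity)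
  obtain ⟨β, hβ⟩ : ∃ β, β = -2 / ((n - 2) * α) := ⟨_, rfl⟩
  have hαβ : α * β = -2 / (n - 2) := by rw [hβ]; field_simp
  have hst : (s + 2 / d) * (σ + 2 / d) = 4 * (n - 1) ^ 2 / d ^ 2 := by
    have : (s + 2 / d) * (σ + 2 / d) = s * σ + (s + σ) * (2 / d) + 4 / d ^ 2 := by
      field_simp; ring
    rw [this, hprod, hsum]
    field_simp
    rw [hd]; ring
  have hβ2 : β ^ 2 = (σ + 2 / d) * (n / (n - 1)) := by
    have h1 : α ^ 2 * β ^ 2 = α ^ 2 * ((σ + 2 / d) * (n / (n - 1))) := by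
      rw [← mul_pow, hαβ, hα2]
      have : (s + 2 / d) * (n / (n - 1)) * ((σ + 2 / d) * (n / (n - 1)))
        = ((s + 2 / d) * (σ + 2 / d)) * (n / (n - 1)) ^ 2 := by ring
      rw [this, hst, hd]
      field_simp
      norm_num
    exact mul_left_cancel₀ (by positivity) h1
  obtain ⟨ν, hν⟩ : ∃ ν : ℝ, ν = 1 / n := ⟨_, rfl⟩
  have hnν : n * ν = 1 := by rw [hν]; field_simp
  have A1 : α ^ 2 * (1 - ν) = s + 2 / d := by rw [hα2, hν]; field_simp
  have B1 : β ^ 2 * (1 - ν) = σ + 2 / d := by rw [hβ2, hν]; field_simp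
  have hss : s ^ 2 = s - 2 / d := by linear_combination (-1 : ℝ) * hprod + s * hsum
  have hσσ : σ ^ 2 = σ - 2 / d := by linear_combination (-1 : ℝ) * hprod + σ * hsum
  have hab : 2 * (α * β) * ν = -(4 / d) := by rw [hαβ, hd, hν]; field_simp; norm_num
  have hgs : n * (s / w) ^ 2 = s ^ 2 := by rw [div_pow, hw2]; field_simp
  have hgσ : n * (σ / w) ^ 2 = σ ^ 2 := by rw [div_pow, hw2]; field_simp
  have hgx : n * (s / w + σ / w) ^ 2 = 1 := by rw [← add_div, hsum, div_pow, hw2]; field_simp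
  let j0 : Fin n := ⟨0, by omega⟩
  refine fam (ι := Bool ⊕ Fin n) (by simp [add_comm])
    (Sum.elim (fun b => V j0 0 (if b then s / w else -(s / w))) (fun j => V j α (-(α * ν))))
    (Sum.elim (fun b => V j0 0 (if b then σ / w else -(σ / w))) (fun j => V j β (-(β * ν)))) ?_ ?_
  · rintro (b | j) (b' | k) hij
    · rw [dist_one_iff, Sum.elim_inl, Sum.elim_inl, dV]
      cases b <;> cases b' <;> simp at hij ⊢
      · linear_combination hgx
      · linear_combination hgx
    · rw [dist_one_iff, Sum.elim_inl, Sum.elim_inr, dV]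
      have e0 : (if j0 = k then 2 * 0 * α else 0) = 0 := by simp
      rw [e0]
      cases b <;> simp only [if_true, if_false, Bool.false_eq_true]
      · linear_combination A1 + hσσ + hgσ + hsum + (α ^ 2 * ν - 2 * α * (σ / w)) * hnν
      · linear_combination A1 + hσσ + hgσ + hsum + (α ^ 2 * ν + 2 * α * (σ / w)) * hnν
    · rw [dist_one_iff, Sum.elim_inl, Sum.elim_inr, dV]
      have e0 : (if j = j0 then 2 * β * 0 else 0) = 0 := by simp
      rw [e0]
      cases b' <;> simp only [if_true, if_false, Bool.false_eq_true]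
      · linear_combination B1 + hss + hgs + hsum + (β ^ 2 * ν - 2 * β * (s / w)) * hnν
      · linear_combination B1 + hss + hgs + hsum + (β ^ 2 * ν + 2 * β * (s / w)) * hnν
    · rw [dist_one_iff, Sum.elim_inr, Sum.elim_inr, dV]
      have hjk : j ≠ k := fun e => hij (by rw [e])
      rw [if_neg hjk]
      linear_combination A1 + B1 + hsum + hab + ((α - β) ^ 2 * ν) * hnν
  · rintro ⟨p, hp⟩
    have h1 := hp _ ⟨Sum.inl true, rfl⟩
    have h2 := hp _ ⟨Sum.inl false, rfl⟩
    have h3 := fun j => hp _ ⟨Sum.inr j, rfl⟩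
    simp only [Sum.elim_inl, Sum.elim_inr, if_true, if_false, Bool.false_eq_true, dist_one_iff,
      dp] at h1 h2 h3
    have hsw : 0 < s / w := by positivity
    have p1 : ∑ i, p i = 0 := by
      have : (s / w) * ∑ i, p i = 0 := by linear_combination (h2 - h1) / 4
      exact (mul_eq_zero.1 this).resolve_left hsw.ne'
    have h4 : ∑ j : Fin n, (∑ i, p i ^ 2 - 2 * -(α * ν) * ∑ i, p i - 2 * α * p j
      + α ^ 2 + n * (-(α * ν)) ^ 2 + 2 * α * -(α * ν)) = ∑ j : Fin n, 1 :=
      Finset.sum_congr rfl fun j _ => h3 j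
    rw [p1] at h1 h4
    simp only [Finset.sum_add_distrib, Finset.sum_sub_distrib, ← Finset.mul_sum,
      Finset.sum_const, Finset.card_univ, Fintype.card_fin, nsmul_eq_mul, p1] at h4
    have h5 : n * (∑ i, p i ^ 2 + α ^ 2 * (1 - ν)) = n * 1 := by
      linear_combination h4 - (n * α ^ 2 * ν) * hnν
    have h6 := mul_left_cancel₀ hn0.ne' h5
    have h7 : 4 / d = 0 := by linear_combination h6 - A1 - h1 + hgs + hss
    have : 0 < 4 / d := by positivity
    linarith

/-- five spheres: the quadruples containing one fixed sphere do not suffice -/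
lemma sharp : ∃ (S : Set (E 3)) (c₀ : E 3), c₀ ∈ S ∧ S.encard = 5 ∧
    (∀ T ⊆ S, c₀ ∈ T → T.encard = 4 → Meet T) ∧ ¬ Meet S := by
  let c : Fin 5 → E 3 := ![!₂[0, 0, 0], !₂[-14/51, 2/51, 2/51], !₂[2/11, -6/11, 2/11],
    !₂[2/11, 2/11, -6/11], !₂[2/3, 2/3, 2/3]]
  let p : Fin 5 → E 3 := ![!₂[0, 0, 0], !₂[1, 0, 0], !₂[0, 1, 0], !₂[0, 0, 1],
    !₂[-1/3, -2/3, -2/3]]
  have h : ∀ i j, i ≠ 0 → i ≠ j → dist (p i) (c j) = 1 := by
    intro i j hi hij
    rw [dist_one_iff, Fin.sum_univ_three]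
    fin_cases i <;> fin_cases j <;> simp [p, c] at hi hij ⊢ <;> norm_num
  have hno : ¬ Meet (Set.range c) := by
    rintro ⟨p, hp⟩
    have h0 := hp _ ⟨0, rfl⟩
    have h1 := hp _ ⟨1, rfl⟩
    have h2 := hp _ ⟨2, rfl⟩
    have h3 := hp _ ⟨3, rfl⟩
    have h4 := hp _ ⟨4, rfl⟩
    rw [dist_one_iff, Fin.sum_univ_three] at h0 h1 h2 h3 h4
    simp [c] at h0 h1 h2 h3 h4
    linarith
  have hc : Function.Injective c := by
    intro i j hij
    have e0 := congrFun (congrArg (fun v : E 3 => v.ofLp) hij) 0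
    have e1 := congrFun (congrArg (fun v : E 3 => v.ofLp) hij) 1
    fin_cases i <;> fin_cases j <;> first
      | rfl
      | (refine absurd e0 ?_; norm_num [c]; done)
      | (refine absurd e1 ?_; norm_num [c]; done)
  have hcard : (Set.range c).encard = 5 := by
    rw [← Set.image_univ, hc.encard_image, Set.encard_univ, ENat.card_eq_coe_fintype_card]
    simp
  refine ⟨Set.range c, c 0, ⟨0, rfl⟩, hcard, ?_, hno⟩
  intro T hT h0 hTc
  have : ∃ i, c i ∉ T := by
    by_contra hall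
    push Not at hall
    have h1 : (Set.range c).encard ≤ T.encard :=
      Set.encard_le_encard (by rintro _ ⟨i, rfl⟩; exact hall i)
    rw [hcard, hTc] at h1
    exact absurd h1 (by norm_num)
  obtain ⟨i, hi⟩ := this
  refine ⟨p i, fun y hy => ?_⟩
  obtain ⟨j, rfl⟩ := hT hy
  exact h i j (by rintro rfl; exact hi h0) (by rintro rfl; exact hi hy)

/-- in dimension three the centres may be repeated -/
lemma indexed {ι : Type*} (c : ι → E 3) (h4 : 4 ≤ (Set.univ : Set ι).encard)
    (h : ∀ I : Set ι, I.encard = 4 → Meet (c '' I)) : Meet (Set.range c) := by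
  have h' : ∀ T ⊆ Set.range c, T.encard ≤ 4 → Meet T := by
    intro T hT hTc
    obtain ⟨J, -, hJ⟩ := Set.exists_subset_bijOn (c ⁻¹' T) c
    have hJT : c '' J = T := by
      rw [hJ.image_eq, Set.image_preimage_eq_of_subset hT]
    have hJc : J.encard ≤ 4 := by rw [← hJ.injOn.encard_image, hJT]; exact hTc
    obtain ⟨I, h1, -, h3⟩ := Set.exists_superset_subset_encard_eq (Set.subset_univ J) hJc h4
    rw [← hJT]
    exact (h I h3).mono (Set.image_mono h1)
  by_cases h5 : 5 ≤ (Set.range c).encard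
  · exact maehara3 _ (le_trans (by norm_num) h5)
      (fun T hT hTc => h' T hT (by rw [hTc]; norm_num))
  · push Not at h5
    exact h' _ subset_rfl (ENat.lt_add_one_iff (by norm_num) |>.1 (lt_of_lt_of_le h5 (by norm_num)))

/-- Maehara's question in every dimension; in dimension three, repeated centres and quadruples
through one sphere. -/
theorem result :
    (∀ n : ℕ, Maehara n ↔ n ≤ 1 ∨ n = 3) ∧
    (∀ (ι : Type) (c : ι → E 3), 4 ≤ (Set.univ : Set ι).encard →
      (∀ I : Set ι, I.encard = 4 → Meet (c '' I)) → Meet (Set.range c)) ∧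
    (∀ (S : Set (E 3)) (c₀ : E 3), c₀ ∈ S → 6 ≤ S.encard →
      (∀ T ⊆ S, c₀ ∈ T → T.encard = 4 → Meet T) → Meet S) ∧
    (∃ (S : Set (E 3)) (c₀ : E 3), c₀ ∈ S ∧ S.encard = 5 ∧
      (∀ T ⊆ S, c₀ ∈ T → T.encard = 4 → Meet T) ∧ ¬ Meet S) := by
  refine ⟨fun n => ⟨fun h => ?_, ?_⟩, fun ι c => indexed c, fixedOne, sharp⟩
  · by_contra hn
    push Not at hn
    rcases (show n = 2 ∨ 4 ≤ n by omega) with rfl | h4
    · exact two h
    · exact big h4 h
  · rintro (h | rfl)
    · exact small h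
    · exact maehara3

end Pool.Agent.Results.MP_f35a22_co.EveryDimension
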